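import Pool.Agent.NH29.GN.Hi3
import Pool.Agent.NH29.GN.Fin3
import Pool.Agent.U582.GN.Fmt

/-!
MP_17a322_nt, Q1: an inequality of Vojta's type for all rational points, without exceptional set, for
the divisors with at least `n + 2` Zariski-general components, of almost all small degrees, on an
arbitrary projective variety of dimension `n`, and for all their strata.

Let `k` be a number field. Let `V` be a closed subset of projective space, given by forms with
coefficients in `k`, of dimension at most `n`: there are `n + 1` linear forms over `k` without common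
zero on `V`. Let `q ≥ n + 2`, and let `d_1, …, d_q` be positive integers, such that at most
`2 (q - n - 1)` of them are equal to `1` (for `q = n + 2`: at most two of them), or such that for
`1 ≤ m ≤ n` the sum of any `q - 1 - m` of them is at least `n - m + n / m`.

THEOREM. There is a nonzero polynomial `Φ`, with coefficients in `k`, in the coefficients of `q`
forms of degrees `d_1, …, d_q`, with the following property. For all number fields `κ` which contain
`k` and all finite sets `S` of finite places of `κ` there is a constant `A > 0` such that for all forms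
`F = (F_1, …, F_q)` of degrees `d_1, …, d_q` over `κ` with `Φ (F) ≠ 0`, all proper subsets `C` of the
indices and all `κ`-points `x` of `V` with `F_c (x) = 0` for `c ∈ C` and `F_b (x) ≠ 0` for `b ∉ C`:
(1) `h (x) ≤ A (1 + ∑ h (F_b) + N_S (D, x))`;
(2) `m_S (D, x) ≤ (deg D - 1 / A) h (x) + 1 + 2 ∑ h (F_b)`, where `D` is the sum of the `F_b = 0`,
`b ∉ C`, and `deg D = ∑ d_b`, `b ∉ C`.
Here `h` is the absolute logarithmic height, and `N_S (D, x)` and `m_S (D, x)` are the counting function
and the proximity function, the sums of the local heights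
  `log (|F_b|_w |x|_w ^ {d_b} / |F_b (x)|_w)`
over the places `w` not in `S`, and over the infinite places and those in `S`, with the usual
normalization. For `C = ∅` this is `m_S (D, x) ≤ (1 - c) h_D (x) + O (1)`, `c > 0`, for all points off
`D`, and so `h (x)` is bounded for all `S`-integral points. Vojta's conjecture, for the subvarieties
of `V`, implies such inequalities. The constants are uniform: the bounds are linear in the heights
of the forms.

The theorem is `Pool.Agent.NH29.GN.Hi.hi3` of the starting library with the first main theorem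
(`Pool.Agent.U582.GN.fmtS`, adapted from `Pool.Agent.NH29.GH.Fmt`).
-/

set_option autoImplicit false

namespace Pool.Agent.Results.MP_17a322_nt.GeneralComponents

open MvPolynomial Module Height NumberField

variable {k : Type} [Field k] {M q : ℕ}

/-- The closed subset of the projective space of dimension `M` given by the forms in `V` has
dimension at most `n`: there are `n + 1` linear forms without common zero on it. -/
def DimLE (V : Set (MvPolynomial (Fin (M + 1)) k)) (n : ℕ) : Prop :=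
  ∃ ℓ : Fin (n + 1) → MvPolynomial (Fin (M + 1)) k, (∀ j, (ℓ j).IsHomogeneous 1) ∧
    ∀ y : Fin (M + 1) → AlgebraicClosure k,
      (∀ H ∈ V, aeval y H = 0) → (∀ j, aeval y (ℓ j) = 0) → y = 0

/-- The indices of the coefficients of `q` forms of degrees `d i` in `M + 1` variables. -/
abbrev Index (M : ℕ) {q : ℕ} (d : Fin q → ℕ) : Type :=
  (i : Fin q) × {β : Fin (M + 1) →₀ ℕ // β.degree = d i}

/-- `F` is a family of forms of degrees `d i`, and `Φ (F) ≠ 0`. -/
def General {κ : Type} [Field κ] [Algebra k κ] {d : Fin q → ℕ} (Φ : MvPolynomial (Index M d) k)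
    (F : Fin q → MvPolynomial (Fin (M + 1)) κ) : Prop :=
  (∀ i, (F i).IsHomogeneous (d i)) ∧ aeval (fun s : Index M d => coeff s.2.1 (F s.1)) Φ ≠ 0

/-- The family of the coefficients of a form of degree `e`. -/
def coeffs {κ : Type} [Field κ] (e : ℕ) (F : MvPolynomial (Fin (M + 1)) κ) :
    {β : Fin (M + 1) →₀ ℕ // β.degree = e} → κ :=
  fun β => coeff β.1 F

/-- The absolute logarithmic height of a point of projective space. -/
noncomputable def absHeight {κ : Type} [Field κ] [NumberField κ] {ι : Type} (x : ι → κ) : ℝ :=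
  logHeight x / (finrank ℚ κ : ℝ)

/-- The local height `log (|F|_w |x|_w ^ e / |F (x)|_w)` of the point `x`, with respect to the
hypersurface `F = 0`, where `F` is a form of degree `e`, and `w` an absolute value. -/
noncomputable def localHeight {κ : Type} [Field κ] (w : κ → ℝ) (e : ℕ)
    (F : MvPolynomial (Fin (M + 1)) κ) (x : Fin (M + 1) → κ) : ℝ :=
  Real.log ((⨆ β, w (coeffs e F β)) * (⨆ a, w (x a)) ^ e / w (eval x F))

/-- The counting function of the hypersurface `F = 0` at the point `x`: the sum over the finite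
places which are not in `S`, divided by the degree of the field. -/
noncomputable def counting {κ : Type} [Field κ] [NumberField κ] (S : Finset (FinitePlace κ))
    (e : ℕ) (F : MvPolynomial (Fin (M + 1)) κ) (x : Fin (M + 1) → κ) : ℝ :=
  (∑ᶠ v : {v : FinitePlace κ // v ∉ S}, localHeight v.1 e F x) / (finrank ℚ κ : ℝ)

/-- The proximity function of the hypersurface `F = 0` at the point `x`: the sum over the
infinite places and the places in `S`, divided by the degree of the field. -/
noncomputable def proximity {κ : Type} [Field κ] [NumberField κ] (S : Finset (FinitePlace κ))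
    (e : ℕ) (F : MvPolynomial (Fin (M + 1)) κ) (x : Fin (M + 1) → κ) : ℝ :=
  (∑ w : InfinitePlace κ, (w.mult : ℝ) * localHeight w e F x + ∑ v ∈ S, localHeight v e F x) /
    (finrank ℚ κ : ℝ)

/-- The two inequalities. -/
def Inequalities {κ : Type} [Field κ] [NumberField κ] (S : Finset (FinitePlace κ))
    (d : Fin q → ℕ) (F : Fin q → MvPolynomial (Fin (M + 1)) κ) (C : Finset (Fin q))
    (x : Fin (M + 1) → κ) (A : ℝ) : Prop :=
  -- (1)
  absHeight x ≤
    A * (1 + ∑ b, absHeight (coeffs (d b) (F b)) + ∑ b ∈ Cᶜ, counting S (d b) (F b) x) ∧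
  -- (2)
  ∑ b ∈ Cᶜ, proximity S (d b) (F b) x ≤
    (∑ b ∈ Cᶜ, (d b : ℝ) - 1 / A) * absHeight x + 1 + 2 * ∑ b, absHeight (coeffs (d b) (F b))

section Proof

open Pool.Agent.NH29.GN (Idx Mon fv val cnt)

theorem fv_eq {κ : Type} [Field κ] {d : Fin q → ℕ}
    {F : Fin q → MvPolynomial (Fin (M + 1)) κ} (hF : ∀ i, (F i).IsHomogeneous (d i))
    (x : Fin (M + 1) → κ) (b : Fin q) :
    fv (K := κ) (L := κ) (fun s : Idx M d => coeff s.2.1 (F s.1)) x b = eval x (F b) :=
  Pool.Agent.NH29.GN.Fn.fv_eq hF x b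

theorem sum_eq {κ : Type} [Field κ] {e : ℕ}
    {F : MvPolynomial (Fin (M + 1)) κ} (hF : F.IsHomogeneous e) (x : Fin (M + 1) → κ) :
    ∑ β : Mon M e, coeff β.1 F * val x β.1 = eval x F := by
  classical
  rw [eval, coe_eval₂Hom, Pool.Agent.NH29.GN.Stc.eval₂_form (RingHom.id κ) x hF]
  rfl

theorem fin_pos (κ : Type) [Field κ] [NumberField κ] : (0 : ℝ) < (finrank ℚ κ : ℝ) := by
  exact_mod_cast finrank_pos

end Proof

theorem result {k : Type} [Field k] [NumberField k] {M n q : ℕ}
    -- the variety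
    (V : Set (MvPolynomial (Fin (M + 1)) k)) (hV : ∀ H ∈ V, ∃ e, H.IsHomogeneous e)
    (hn : DimLE V n)
    -- the degrees
    (d : Fin q → ℕ) (hd : ∀ b, 0 < d b) (hq : n + 2 ≤ q)
    (h : (Finset.univ.filter fun b => d b = 1).card + 2 ≤ 2 * (q - n) ∨
      ∀ m, 1 ≤ m → m ≤ n → ∀ B : Finset (Fin q), B.card + m + 1 = q →
        n + m * (n - m) ≤ m * ∑ b ∈ B, d b) :
    ∃ Φ : MvPolynomial (Index M d) k, Φ ≠ 0 ∧
      ∀ (κ : Type) [Field κ] [NumberField κ] [Algebra k κ] (S : Finset (FinitePlace κ)),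
        ∃ A : ℝ, 0 < A ∧ ∀ F : Fin q → MvPolynomial (Fin (M + 1)) κ, General Φ F →
          ∀ C : Finset (Fin q), C ≠ Finset.univ → ∀ x : Fin (M + 1) → κ, x ≠ 0 →
            (∀ H ∈ V, aeval x H = 0) → (∀ c ∈ C, eval x (F c) = 0) →
            (∀ b, b ∉ C → eval x (F b) ≠ 0) → Inequalities S d F C x A := by
  classical
  obtain ⟨ℓ, hℓ, hℓ0⟩ := hn
  have hNum : ∀ C : Finset (Fin q), C ≠ Finset.univ → Pool.Agent.NH29.GN.Num2 n d C := by
    intro C hC
    rcases h with h | h
    · exact Pool.Agent.NH29.GN.Fn.num_of_few hd hq h C hC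
    · exact Pool.Agent.NH29.GN.Fn.num_of_sum hq h C hC
  obtain ⟨Φ, hΦ, h1⟩ := Pool.Agent.NH29.GN.Hi.hi3 hV hℓ
    (Pool.Agent.NH29.GN.Fn.noZero_of_points hℓ0) (by omega) hd hNum
  refine ⟨Φ, hΦ, fun κ _ _ _ S => ?_⟩
  obtain ⟨A₀, hA₀⟩ := h1 κ S
  have hE0 := fin_pos κ
  have hE1 : (1 : ℝ) ≤ (finrank ℚ κ : ℝ) := by exact_mod_cast (finrank_pos : 0 < finrank ℚ κ)
  refine ⟨|A₀| + 1, by positivity, fun F hF C hC x hx hxV hxC hxo => ?_⟩
  have hfv := fv_eq hF.1 x
  have hpt : Pool.Agent.NH29.GN.Hi.Pt2 V C (fun s : Pool.Agent.NH29.GN.Idx M d =>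
      coeff s.2.1 (F s.1)) x := by
    refine ⟨hx, hxV, fun c hc => ?_, fun b hb => ?_⟩
    · rw [hfv]
      exact hxC c hc
    · rw [hfv]
      exact hxo b hb
  have h2 := hA₀ _ hF.2 C hC x hpt
  have hcn : ∀ b, counting S (d b) (F b) x =
      Pool.Agent.NH29.GN.cnt S (fun β : Pool.Agent.NH29.GN.Mon M (d b) => coeff β.1 (F b)) x /
        (finrank ℚ κ : ℝ) := by
    intro b
    unfold counting Pool.Agent.NH29.GN.cnt localHeight
    rw [sum_eq (hF.1 b)]
    rfl
  have hcn0 : ∀ b, b ∉ C → 0 ≤ counting S (d b) (F b) x := by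
    intro b hb
    rw [hcn]
    refine div_nonneg ?_ hE0.le
    have hb1 : Pool.Agent.NH29.GN.fv (K := κ) (L := κ)
        (fun s : Pool.Agent.NH29.GN.Idx M d => coeff s.2.1 (F s.1)) x b ≠ 0 := by
      rw [hfv]
      exact hxo b hb
    exact (Pool.Agent.NH29.GN.cntP κ S M q d _ x b b hb1 hb1).1
  have hY : ∀ b, 0 ≤ absHeight (coeffs (d b) (F b)) := by
    intro b
    have : Nonempty {β : Fin (M + 1) →₀ ℕ // β.degree = d b} :=
      ⟨Pool.Agent.NH29.GN.Hi.mon0 M (d b)⟩
    exact div_nonneg (logHeight_nonneg _) hE0.le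
  have hS1 : 0 ≤ ∑ b, absHeight (coeffs (d b) (F b)) := Finset.sum_nonneg fun b _ => hY b
  have hS2 : 0 ≤ ∑ b ∈ Cᶜ, counting S (d b) (F b) x :=
    Finset.sum_nonneg fun b hb => hcn0 b (Finset.mem_compl.1 hb)
  have h3 : absHeight x ≤ (|A₀| + 1) *
      (1 + ∑ b, absHeight (coeffs (d b) (F b)) + ∑ b ∈ Cᶜ, counting S (d b) (F b) x) := by
    have h4 : absHeight x ≤ |A₀| * ((1 + ∑ b, logHeight (fun β : Pool.Agent.NH29.GN.Mon M (d b) =>
        coeff β.1 (F b)) + ∑ b ∈ Cᶜ, Pool.Agent.NH29.GN.cnt S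
          (fun β : Pool.Agent.NH29.GN.Mon M (d b) => coeff β.1 (F b)) x) /
            (finrank ℚ κ : ℝ)) := by
      unfold absHeight
      rw [← mul_div_assoc]
      refine div_le_div_of_nonneg_right ?_ hE0.le
      refine h2.trans (mul_le_mul_of_nonneg_right (le_abs_self A₀) ?_)
      have e1 : 0 ≤ ∑ b, logHeight (fun β : Pool.Agent.NH29.GN.Mon M (d b) => coeff β.1 (F b)) := by
        refine Finset.sum_nonneg fun b _ => ?_
        have h5 := hY b
        unfold absHeight at h5
        have h6 := mul_nonneg h5 hE0.le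
        rwa [div_mul_cancel₀ _ hE0.ne'] at h6
      have e2 : 0 ≤ ∑ b ∈ Cᶜ, Pool.Agent.NH29.GN.cnt S
          (fun β : Pool.Agent.NH29.GN.Mon M (d b) => coeff β.1 (F b)) x := by
        refine Finset.sum_nonneg fun b hb => ?_
        have h5 := hcn0 b (Finset.mem_compl.1 hb)
        rw [hcn] at h5
        have h6 := mul_nonneg h5 hE0.le
        rwa [div_mul_cancel₀ _ hE0.ne'] at h6
      linarith
    refine h4.trans ?_
    have h5 : (1 + ∑ b, logHeight (fun β : Pool.Agent.NH29.GN.Mon M (d b) =>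
        coeff β.1 (F b)) + ∑ b ∈ Cᶜ, Pool.Agent.NH29.GN.cnt S
          (fun β : Pool.Agent.NH29.GN.Mon M (d b) => coeff β.1 (F b)) x) / (finrank ℚ κ : ℝ) =
        1 / (finrank ℚ κ : ℝ) + ∑ b, absHeight (coeffs (d b) (F b)) +
          ∑ b ∈ Cᶜ, counting S (d b) (F b) x := by
      rw [Finset.sum_congr rfl fun b _ => hcn b, ← Finset.sum_div, add_div, add_div]
      unfold absHeight
      rw [← Finset.sum_div]
      rfl
    rw [h5]
    have h6 : 1 / (finrank ℚ κ : ℝ) ≤ 1 := by
      rw [div_le_one hE0]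
      exact hE1
    have h7 : 0 ≤ 1 / (finrank ℚ κ : ℝ) := by positivity
    have h8 : |A₀| * (1 / (finrank ℚ κ : ℝ) + ∑ b, absHeight (coeffs (d b) (F b)) +
          ∑ b ∈ Cᶜ, counting S (d b) (F b) x) ≤ |A₀| * (1 + ∑ b, absHeight (coeffs (d b) (F b)) +
          ∑ b ∈ Cᶜ, counting S (d b) (F b) x) :=
      mul_le_mul_of_nonneg_left (by linarith) (abs_nonneg _)
    linarith
  refine ⟨h3, ?_⟩
  -- the first main theorem
  have h4 : ∀ b, b ∉ C → proximity S (d b) (F b) x + counting S (d b) (F b) x =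
      absHeight (coeffs (d b) (F b)) + d b * absHeight x := by
    intro b hb
    have hne : ∑ β : Pool.Agent.NH29.GN.Mon M (d b), coeff β.1 (F b) *
        Pool.Agent.NH29.GN.val x β.1 ≠ 0 := by
      rw [sum_eq (hF.1 b)]
      exact hxo b hb
    have h5 := Pool.Agent.U582.GN.fmtS κ S M (d b)
      (fun β : Pool.Agent.NH29.GN.Mon M (d b) => coeff β.1 (F b)) x hne
    rw [sum_eq (hF.1 b)] at h5
    have h6 : proximity S (d b) (F b) x =
        (∑ w : InfinitePlace κ, (w.mult : ℝ) *
          Real.log ((⨆ β : Pool.Agent.NH29.GN.Mon M (d b), w (coeff β.1 (F b))) *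
            (⨆ a, w (x a)) ^ d b / w (eval x (F b))) +
        ∑ v ∈ S, Real.log ((⨆ β : Pool.Agent.NH29.GN.Mon M (d b), v (coeff β.1 (F b))) *
            (⨆ a, v (x a)) ^ d b / v (eval x (F b)))) / (finrank ℚ κ : ℝ) := rfl
    rw [hcn, h6, ← add_div, h5, add_div]
    unfold absHeight
    rw [mul_div_assoc]
    rfl
  have h5 : ∑ b ∈ Cᶜ, proximity S (d b) (F b) x + ∑ b ∈ Cᶜ, counting S (d b) (F b) x =
      ∑ b ∈ Cᶜ, absHeight (coeffs (d b) (F b)) + (∑ b ∈ Cᶜ, (d b : ℝ)) * absHeight x := by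
    rw [← Finset.sum_add_distrib, Finset.sum_congr rfl fun b hb => h4 b (Finset.mem_compl.1 hb),
      Finset.sum_add_distrib, Finset.sum_mul]
  have h5' : ∑ b ∈ Cᶜ, absHeight (coeffs (d b) (F b)) ≤ ∑ b, absHeight (coeffs (d b) (F b)) :=
    Finset.sum_le_sum_of_subset_of_nonneg (Finset.subset_univ _) fun b _ _ => hY b
  have hA1 : (0 : ℝ) < |A₀| + 1 := by positivity
  have h6 : 1 / (|A₀| + 1) * absHeight x ≤
      1 + ∑ b, absHeight (coeffs (d b) (F b)) + ∑ b ∈ Cᶜ, counting S (d b) (F b) x := by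
    rw [one_div, inv_mul_le_iff₀ hA1]
    exact h3
  have h7 : (∑ b ∈ Cᶜ, (d b : ℝ) - 1 / (|A₀| + 1)) * absHeight x =
      (∑ b ∈ Cᶜ, (d b : ℝ)) * absHeight x - 1 / (|A₀| + 1) * absHeight x := by ring
  rw [h7]
  linarith

end Pool.Agent.Results.MP_17a322_nt.GeneralComponents
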