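import Pool.Agent.R405.Fin1

set_option autoImplicit false

/-!
# Vojta's inequality in the plane at one place for lines and conics

`X = ℙ²` over a number field `k`, `D` a normal crossings divisor over `k` whose geometric components
are lines defined over a finite extension `K` of `k` and conics defined over `k`, and `S = {v}`.
-/

namespace Pool.Agent.Results.MP_17a322_nt.LinesAndConicsOnePlace

open NumberField IsDedekindDomain

/-- The places of a number field: the archimedean places and the primes. -/
abbrev Place (k : Type) [Field k] [NumberField k] : Type :=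
  InfinitePlace k ⊕ HeightOneSpectrum (𝓞 k)

/-- The local height `d_v λ_{D,v}` of the curve `F = 0` of degree `d` at the point with homogeneous
coordinates `x`, where `d_v = [k_v : ℚ_v] / [k : ℚ]`. (The absolute value of a prime `p` is the
normalised one, with the value `(N p) ^ (-ord_p x)` at `x ≠ 0`.) -/
noncomputable def localHeight {k : Type} [Field k] [NumberField k] (v : Place k) (d : ℕ)
    (F : MvPolynomial (Fin 3) k) (x : Fin 3 → k) : ℝ :=
  match v with
  | Sum.inl w => w.mult * Real.log ((⨆ j, w (x j)) ^ d / w (MvPolynomial.eval x F)) /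
      Module.finrank ℚ k
  | Sum.inr p => Real.log ((⨆ j, FinitePlace.mk p (x j)) ^ d /
      FinitePlace.mk p (MvPolynomial.eval x F)) / Module.finrank ℚ k

/-- The absolute logarithmic height. -/
noncomputable def height {k : Type} [Field k] [NumberField k] (x : Fin 3 → k) : ℝ :=
  Height.logHeight x / Module.finrank ℚ k

/-- The curves `F i = 0` in the plane over `K` have normal crossings: at every geometric point the
gradients of the equations of the curves through it are linearly independent (so the curves are
smooth, meet transversally, and no three of them have a common point). -/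
def NormalCrossings {K : Type} [Field K] {q : ℕ} (F : Fin q → MvPolynomial (Fin 3) K) : Prop :=
  ∀ (L : Type) [Field L] [Algebra K L] (y : Fin 3 → L), y ≠ 0 →
    LinearIndependent L (fun (j : {j : Fin q // MvPolynomial.aeval y (F j) = 0}) (i : Fin 3) =>
      MvPolynomial.aeval y (MvPolynomial.pderiv i (F j)))

/-- The line `m = 0` over `k` passes through a geometric point which lies on two of the curves
`F i = 0` and is not a `k`-rational point. -/
def ThroughIrrationalCrossing {k K : Type} [Field k] [Field K] [Algebra k K] {q : ℕ}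
    (F : Fin q → MvPolynomial (Fin 3) K) (m : Fin 3 → k) : Prop :=
  ∃ (L : Type) (_ : Field L) (_ : Algebra K L) (y : Fin 3 → L), y ≠ 0 ∧
    (∃ i j, i ≠ j ∧ MvPolynomial.aeval y (F i) = 0 ∧ MvPolynomial.aeval y (F j) = 0) ∧
    (¬ ∃ (y₀ : Fin 3 → k) (c : L), y = c • fun b => algebraMap K L (algebraMap k K (y₀ b))) ∧
    ∑ b, algebraMap K L (algebraMap k K (m b)) * y b = 0

/-- **Vojta's inequality in the plane at one place for lines and conics.** Let `D = {F₀ = 0}` be a
divisor of `ℙ²` over the number field `k` with normal crossings, whose components `F i = 0` over the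
finite extension `K` of `k` are lines or conics, the conics being defined over `k`. There is a finite
set `Z` of lines over `k`, each passing through a crossing point of `D` which is not `k`-rational,
such that for every place `v` of `k` and every `ε > 0` there is a constant `C` with
`m_{v,D}(x) + h_K(x) ≤ ε h(x) + C`, where `h_K = -3 h`, for all `x ∈ ℙ²(k)` outside of `D` and `Z`. -/
theorem result (k K : Type) [Field k] [NumberField k] [Field K] [NumberField K] [Algebra k K]
    (q : ℕ) (F : Fin q → MvPolynomial (Fin 3) K) (d : Fin q → ℕ)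
    (hF : ∀ i, (F i).IsHomogeneous (d i)) (hnc : NormalCrossings F)
    (hd : ∀ i, d i = 1 ∨
      (d i = 2 ∧ ∃ Q : MvPolynomial (Fin 3) k, F i = MvPolynomial.map (algebraMap k K) Q))
    (F₀ : MvPolynomial (Fin 3) k) (hF₀ : MvPolynomial.map (algebraMap k K) F₀ = ∏ i, F i) :
    ∃ Z : Finset (Fin 3 → k), (∀ m ∈ Z, m ≠ 0 ∧ ThroughIrrationalCrossing F m) ∧
      ∀ (v : Place k) (ε : ℝ), 0 < ε → ∃ C : ℝ, ∀ x : Fin 3 → k, x ≠ 0 →
        MvPolynomial.eval x F₀ ≠ 0 → (∀ m ∈ Z, ∑ j, m j * x j ≠ 0) →
          localHeight v (∑ i, d i) F₀ x - 3 * height x ≤ ε * height x + C := by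
  obtain ⟨Z, hZ, h⟩ := Pool.Agent.R405.mainT (k := k) (K := K) F d hF hnc hd F₀ hF₀
  refine ⟨Z, hZ, fun v ε hε => ?_⟩
  obtain ⟨C, hC⟩ := h v ε hε
  set N : ℝ := ((Module.finrank ℚ k : ℕ) : ℝ) with hN
  have hN0 : (0 : ℝ) < N := by
    rw [hN]
    exact_mod_cast Module.finrank_pos
  refine ⟨C / N, fun x hx hx0 hxZ => ?_⟩
  have h1 := hC x hx hx0 hxZ
  have hl : localHeight v (∑ i, d i) F₀ x =
      Pool.Agent.W180.OP.wt v * Pool.Agent.W180.OP.lam (Pool.Agent.W180.OP.av v) (∑ i, d i) F₀ x /
        N := by
    rcases v with w | p
    · rfl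
    · show Real.log _ / _ = 1 * _ / _
      rw [one_mul]
      rfl
  have h2 : localHeight v (∑ i, d i) F₀ x ≤ ((3 + ε) * Height.logHeight x + C) / N := by
    rw [hl]
    exact div_le_div_of_nonneg_right h1 hN0.le
  have h3 : ((3 + ε) * Height.logHeight x + C) / N = 3 * height x + (ε * height x + C / N) := by
    rw [height, ← hN]
    ring
  rw [h3] at h2
  linarith

end Pool.Agent.Results.MP_17a322_nt.LinesAndConicsOnePlace
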