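import Mathlib
import Pool.Agent.U155.QS.C

/-!
# Vojta's inequality on smooth quadric surfaces at one place: lines and plane sections

`X` is a smooth quadric surface `∑ A i j x_i x_j = 0` in `ℙ³` over a number field `k` (`A` symmetric,
`det A ≠ 0`); `K_X = -2 H`, `H` a plane section. The rulings of `X` need not be defined over `k`,
and `X` may have no lines over `k`. `D = ∑ D_i` is a divisor whose components are

* lines on `X`, defined over a finite extension `K` of `k` (they may be conjugate over `k`),
* plane sections of `X` defined over `k`,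

no three of them through one geometric point; for instance any normal crossings divisor with such
components. `S` consists of one arbitrary place `v` of `k`.

There are finitely many plane sections `Z` of `X` over `k`, the same for all `v` and all `ε > 0`, such
that `m_{S,D}(x) + h_K(x) ≤ ε h(x) + O(1)` for all `x ∈ X(k)` outside of `Z` and `D`.

The degree over `k` of the lines is arbitrary, so that the trivial (Liouville) bound is not sufficient.
The proof uses Schmidt's subspace theorem with coefficients in `K` for the four plane sections
`{a, a'} × {b, b'}` which belong to a crossing point `(a, b)` of lines of the two rulings, or of a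
line and a plane section; at such a crossing the other line through the point is used.
-/

set_option autoImplicit false

namespace Pool.Agent.Results.MP_17a322_nt.QuadricSurfaces

open NumberField IsDedekindDomain

/-- The places of a number field: the archimedean places and the primes. -/
abbrev Place (k : Type) [Field k] [NumberField k] : Type :=
  InfinitePlace k ⊕ HeightOneSpectrum (𝓞 k)

/-- The absolute value of a place; for a prime `p` it is normalised, with the value
`(N p) ^ (-ord_p x)`. -/
noncomputable def absv {k : Type} [Field k] [NumberField k] (v : Place k) (x : k) : ℝ :=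
  match v with
  | Sum.inl w => w x
  | Sum.inr p => FinitePlace.mk p x

/-- The multiplicity of a place: `2` for the complex places, otherwise `1`. Thus
`mult v * log (absv v x)` is `[k : ℚ] d_v log |x|_v`, if `d_v = [k_v : ℚ_v] / [k : ℚ]` and `|.|_v`
extends the standard absolute value of `ℚ`. -/
noncomputable def mult {k : Type} [Field k] [NumberField k] (v : Place k) : ℝ :=
  match v with
  | Sum.inl w => w.mult
  | Sum.inr _ => 1

/-- The absolute logarithmic height. -/
noncomputable def height {k : Type} [Field k] [NumberField k] (x : Fin 4 → k) : ℝ :=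
  Height.logHeight x / Module.finrank ℚ k

/-- A component of the divisor: a line, given by two linear forms over `K`, or a plane section, given
by a linear form over `k`. -/
inductive Component (k K : Type) : Type where
  | line (g : Fin 2 → Fin 4 → K)
  | plane (m : Fin 4 → k)

/-- The linear forms over `K` of a component. -/
def Component.forms {k K : Type} [Field k] [Field K] [Algebra k K] :
    Component k K → Fin 2 → Fin 4 → K
  | .line g => g
  | .plane m => fun _ b => algebraMap k K (m b)

/-- The component is a line on the quadric, or a plane section. -/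
def Component.IsOn {k K : Type} [Field k] [Field K] [Algebra k K]
    (A : Matrix (Fin 4) (Fin 4) k) : Component k K → Prop
  | .line g => LinearIndependent K g ∧ ∀ y : Fin 4 → K, (∀ e, ∑ b, g e b * y b = 0) →
      ∑ i, ∑ j, algebraMap k K (A i j) * (y i * y j) = 0
  | .plane m => m ≠ 0

/-- The point `y` with coordinates in an extension `L` of `K` is on the component. -/
def Component.Contains {k K L : Type} [Field k] [Field K] [Algebra k K] [Field L] (ψ : K →+* L)
    (D : Component k K) (y : Fin 4 → L) : Prop :=
  ∀ e, ∑ b, ψ (D.forms e b) * y b = 0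

/-- The local height `λ_{D,w}(x) = log (max_b |x_b| / max_e |g_e(x)|)` of a component with the forms
`g_e`, with respect to the absolute value `|y| = absv w y ^ t`, at a point over `k`. For a plane
section the two forms are equal. -/
noncomputable def localHeight {k K : Type} [Field k] [Field K] [NumberField K] [Algebra k K]
    (w : Place K) (t : ℝ) (D : Component k K) (x : Fin 4 → k) : ℝ :=
  Real.log ((⨆ b, absv w (algebraMap k K (x b)) ^ t) /
    max (absv w (∑ b, D.forms 0 b * algebraMap k K (x b)) ^ t)
      (absv w (∑ b, D.forms 1 b * algebraMap k K (x b)) ^ t))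

/-- the component in the notation of the helper files -/
def conv {k K : Type} : Component k K → Pool.Agent.U155.QS.Component k K
  | .line g => .line g
  | .plane m => .plane m

theorem cf_conv {k K : Type} [Field k] [Field K] [Algebra k K] (D : Component k K) :
    Pool.Agent.U155.QS.cf (conv D) = D.forms := by
  cases D <;> rfl

/-- **Vojta's inequality on a smooth quadric surface at one place.** The sum is `m_{S,D}(x)` for
`S = {v}`: the absolute value `absv w ^ t` of `K` extends the absolute value `absv v` of `k` (every
place `w` of `K` above `v` has exactly one such exponent `t`). The points `x` of `X` over `k` which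
are not in `Z` and not on the plane sections among the components are not on the lines either. -/
theorem result {k K : Type} [Field k] [NumberField k] [Field K] [NumberField K] [Algebra k K]
    (A : Matrix (Fin 4) (Fin 4) k) (hA : A.IsSymm) (hdet : A.det ≠ 0)
    {r : ℕ} (D : Fin r → Component k K) (hD : ∀ i, (D i).IsOn A)
    -- no line `D i` is contained in another component `D j`
    (hdist : ∀ i j, i ≠ j → (∃ g, D i = .line g) →
      ∃ y : Fin 4 → K, (D i).Contains (RingHom.id K) y ∧ ¬(D j).Contains (RingHom.id K) y)
    -- no geometric point of `X` is on three components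
    (hthree : ∀ (L : Type) [Field L] (ψ : K →+* L) (y : Fin 4 → L), y ≠ 0 →
      ∑ i, ∑ j, ψ (algebraMap k K (A i j)) * (y i * y j) = 0 → ∀ i j l, i ≠ j → i ≠ l → j ≠ l →
      ¬((D i).Contains ψ y ∧ (D j).Contains ψ y ∧ (D l).Contains ψ y)) :
    ∃ Z : Finset (Fin 4 → k), (∀ z ∈ Z, z ≠ 0) ∧
      ∀ (v : Place k) (w : Place K) (t : ℝ), 0 < t →
        (∀ a : k, absv w (algebraMap k K a) ^ t = absv v a) → ∀ ε : ℝ, 0 < ε →
        ∃ C : ℝ, ∀ x : Fin 4 → k, x ≠ 0 → ∑ i, ∑ j, A i j * (x i * x j) = 0 →
          (∀ z ∈ Z, ∑ b, z b * x b ≠ 0) → (∀ i m, D i = .plane m → ∑ b, m b * x b ≠ 0) →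
          (∀ i, ¬(D i).Contains (RingHom.id K) (fun b => algebraMap k K (x b))) ∧
          mult v / Module.finrank ℚ k * ∑ i, localHeight w t (D i) x - 2 * height x ≤
            ε * height x + C := by
  classical
  obtain ⟨P, w0, hAij, hw0, hP⟩ := Pool.Agent.R405.QS.diag A hA hdet
  obtain ⟨M, hM1, hM2, hi, φ, hsq⟩ := Pool.Agent.R405.QS.exists_big2 K
    {algebraMap k K (-(w0 1 / w0 0)), algebraMap k K (-(w0 3 / w0 2))}
  have : NumberField M := ⟨⟩
  let _ : Algebra K M := φ.toAlgebra
  let _ : Algebra k M := (φ.comp (algebraMap k K)).toAlgebra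
  have : IsScalarTower k K M := IsScalarTower.of_algebraMap_eq fun _ => rfl
  obtain ⟨s, hs⟩ := hsq _ (Finset.mem_insert_self _ _)
  obtain ⟨u, hu⟩ := hsq _ (Finset.mem_insert_of_mem (Finset.mem_singleton_self _))
  obtain ⟨E, hE, hAE⟩ := Pool.Agent.R405.QS.exists_E A P w0 hAij hw0 hP s u hs hu
  obtain ⟨Z, hZ, hmain⟩ := Pool.Agent.U155.QS.mainM (k := k) (K := K) (M := M) hi A E hE hAE
    (fun i => conv (D i)) (by
      intro i
      have h := hD i
      cases hDi : D i with
      | line g =>
        rw [hDi] at h
        exact ⟨h.1, h.2⟩
      | plane m =>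
        rw [hDi] at h
        exact h) (by
      intro i j g hij hg
      obtain ⟨y, hy1, hy2⟩ := hdist i j hij (by
        cases hDi : D i with
        | line g' => exact ⟨g', rfl⟩
        | plane m =>
          rw [hDi] at hg
          cases hg)
      refine ⟨y, fun e => ?_, fun hcon => hy2 fun e => ?_⟩
      · have h1 := hy1 e
        have h2 : (D i).forms = g := by
          rw [← cf_conv, hg]
          rfl
        rw [h2] at h1
        exact h1
      · have h1 := hcon e
        rw [cf_conv] at h1
        exact h1) (by
      intro L _ ψ y hy hq i j l hij hil hjl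
      rintro ⟨h1, h2, h3⟩
      simp only [cf_conv] at h1 h2 h3
      exact hthree L ψ y hy hq i j l hij hil hjl ⟨h1, h2, h3⟩)
  refine ⟨Z, hZ, fun v w t ht hext ε hε => ?_⟩
  have hav : ∀ {F : Type} [Field F] [NumberField F] (v : Place F) (a : F),
      Pool.Agent.W180.OP.av v a = absv v a := by
    intro F _ _ v a
    cases v <;> rfl
  have hwt : Pool.Agent.W180.OP.wt v = mult v := by
    cases v <;> rfl
  obtain ⟨f, hf, hfw⟩ := Pool.Agent.R405.QS.ext_place (M := M) v w t ht (fun a => by
    rw [hav, hav]
    exact hext a)
  obtain ⟨C, hC⟩ := hmain v f hf ε hε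
  set N : ℝ := ((Module.finrank ℚ k : ℕ) : ℝ) with hN
  have hN0 : (0 : ℝ) < N := by
    rw [hN]
    exact_mod_cast Module.finrank_pos
  refine ⟨C / N, fun x hx hq hxZ hxm => ?_⟩
  obtain ⟨hpos, hle⟩ := hC x hx hq hxZ (by
    intro i m h
    refine hxm i m ?_
    cases hDi : D i with
    | line g =>
      rw [hDi] at h
      cases h
    | plane m' =>
      rw [hDi] at h
      injection h with h
      rw [h])
  have hdot : ∀ i e, Pool.Agent.R405.dot (Pool.Agent.R405.exv M ((D i).forms e))
      (Pool.Agent.R405.exv M x) =
      algebraMap K M (∑ b, (D i).forms e b * algebraMap k K (x b)) := by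
    intro i e
    rw [map_sum]
    refine Finset.sum_congr rfl fun b _ => ?_
    rw [map_mul]
    rfl
  have hnn : ∀ i, Pool.Agent.R405.QS.nn f (fun e => Pool.Agent.R405.exv M
      (Pool.Agent.U155.QS.cf (conv (D i)) e)) (Pool.Agent.R405.exv M x) =
      max (absv w (∑ b, (D i).forms 0 b * algebraMap k K (x b)) ^ t)
      (absv w (∑ b, (D i).forms 1 b * algebraMap k K (x b)) ^ t) := by
    intro i
    unfold Pool.Agent.R405.QS.nn
    simp only [cf_conv, hdot, hfw, hav]
  have hnrm : Pool.Agent.W180.OP.nrm f (Pool.Agent.R405.exv M x) =
      ⨆ b, absv w (algebraMap k K (x b)) ^ t := by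
    unfold Pool.Agent.W180.OP.nrm
    refine iSup_congr fun b => ?_
    rw [← hav, ← hfw]
    rfl
  have hxM : Pool.Agent.R405.exv M x ≠ 0 := by
    intro h
    apply hx
    funext b
    have h1 := congrFun h b
    have h2 : algebraMap k M (x b) = 0 := h1
    rwa [map_eq_zero] at h2
  have hlm : ∀ i, Pool.Agent.R405.QS.lm f (fun e => Pool.Agent.R405.exv M
      (Pool.Agent.U155.QS.cf (conv (D i)) e)) (Pool.Agent.R405.exv M x) =
      localHeight w t (D i) x := by
    intro i
    have h1 := hpos i
    have h2 := Pool.Agent.W180.OP.nrm_pos f hxM
    unfold Pool.Agent.R405.QS.lm localHeight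
    rw [hnn] at h1
    rw [hnrm] at h2
    rw [hnn, hnrm, Real.log_div h2.ne' h1.ne']
  refine ⟨fun i hcon => ?_, ?_⟩
  · have h1 := hpos i
    rw [hnn] at h1
    have h2 : ∀ e, ∑ b, (D i).forms e b * algebraMap k K (x b) = 0 := fun e => hcon e
    rw [h2, h2, ← hav, map_zero, Real.zero_rpow ht.ne', max_self] at h1
    exact lt_irrefl _ h1
  · rw [Finset.sum_congr rfl fun i _ => hlm i, hwt] at hle
    have h3 := div_le_div_of_nonneg_right hle hN0.le
    have h4 : mult v * ∑ i, localHeight w t (D i) x / N = 0 ∨ True := Or.inr trivial
    rw [height, ← hN]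
    have h5 : mult v / N * ∑ i, localHeight w t (D i) x =
        (mult v * ∑ i, localHeight w t (D i) x) / N := by ring
    have h6 : ((2 + ε) * Height.logHeight x + C) / N =
        2 * (Height.logHeight x / N) + (ε * (Height.logHeight x / N) + C / N) := by ring
    rw [h5]
    rw [h6] at h3
    linarith

end Pool.Agent.Results.MP_17a322_nt.QuadricSurfaces
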