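import Mathlib
import Pool.Agent.U580.VP.Fin

/-!
# Vojta's inequality for random pairs: the `ε` is the exponent of the tail

Let `X ⊆ ℙ^n` be given by `F_1 = … = F_s = 0`, `deg F_i = d_i` (`s = 0` is allowed: `X = ℙ^n`), and
`D ⊆ X` by `G = 0`, `deg G = e`, over `ℚ`. If `X` is a smooth complete intersection, then
`K_X = O(∑ d_i - n - 1)`. Vojta's inequality for the place `S = {∞}` and the hyperplane class `A` is

  `m_{S,D}(x) + h_{K_X}(x) ≤ ε h(x) + O(1)`   for `x ∈ X(ℚ) ∖ D` outside a closed subset.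

For random integral forms `F_i`, `G` with coefficients in `[-H, H]` and
`m_{S,D}(x) = log (H |x| ^ e / |G(x)|)` (here `H` replaces the largest coefficient of `G`) the
probability that there is a point `x ∈ X(ℚ) ∖ D` of height between `T` and `B` with
`m_{S,D}(x) + h_{K_X}(x) ≥ ε h(x)` is `O (H ^ (-s) T ^ (-ε))` for `B ≤ H` (without exceptional
subset), and, if `X` is a proper subset (`s ≥ 1`) with `∑ d_i ≤ n + 1 + ε` (for instance Fano or
Calabi-Yau), `B ≥ 2 T` and `H ≥ C T ^ (2 n + 2 + ε)`, it is at least `c H ^ (-s) T ^ (-ε)`. So the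
`ε` in Vojta's inequality is the exact exponent of the tail of the height of its violations.

The upper bound is a union bound over the points, with the count of forms with a given value from
the starting library (`Pool.Agent.R870.RC.count_real`). For the lower bound the new lemmas are
a box principle for the values in a window (`Pool.Agent.U580.VP.low_window`), the removal of the
value zero, and a second moment (Bonferroni) over the pairs of points.
-/

set_option autoImplicit false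

namespace Pool.Agent.Results.MP_17a322_nt.RandomLogPairs

open MvPolynomial

/-- the forms of degree `d` in `n + 1` variables with integer coefficients of absolute value at most
`H` -/
def Forms (n d H : ℕ) : Set (MvPolynomial (Fin (n + 1)) ℤ) :=
  {F | F.IsHomogeneous d ∧ ∀ m, |F.coeff m| ≤ (H : ℤ)}

/-- the pairs `((F_1, …, F_s), G)` of forms with coefficients in `[-H, H]` -/
def Pairs (n : ℕ) {s : ℕ} (d : Fin s → ℕ) (e H : ℕ) :
    Set ((Fin s → MvPolynomial (Fin (n + 1)) ℤ) × MvPolynomial (Fin (n + 1)) ℤ) :=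
  {P | (∀ i, P.1 i ∈ Forms n (d i) H) ∧ P.2 ∈ Forms n e H}

/-- the coordinates of `x` are coprime: `x` represents a rational point of `ℙ^n`, and each rational
point has exactly two such representatives, `x` and `-x` -/
def IsPoint {n : ℕ} (x : Fin (n + 1) → ℤ) : Prop := ∀ p : ℕ, p.Prime → ∃ j, ¬ (p : ℤ) ∣ x j

/-- the height `max |x j|` of a rational point -/
def height {n : ℕ} (x : Fin (n + 1) → ℤ) : ℕ := Finset.univ.sup fun j => (x j).natAbs

/-- the proximity function of `G = 0` at the infinite place -/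
noncomputable def proximity {n : ℕ} (e H : ℕ) (G : MvPolynomial (Fin (n + 1)) ℤ)
    (x : Fin (n + 1) → ℤ) : ℝ :=
  Real.log (H * (height x : ℝ) ^ e / ((|eval x G| : ℤ) : ℝ))

/-- the logarithmic height with respect to `O(∑ d_i - n - 1)` -/
noncomputable def canonicalHeight {n s : ℕ} (d : Fin s → ℕ) (x : Fin (n + 1) → ℤ) : ℝ :=
  (((∑ i, d i : ℕ) : ℝ) - (n + 1)) * Real.log (height x)

/-- the pairs for which Vojta's inequality is violated at a rational point of `F_1 = … = F_s = 0`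
outside `G = 0` whose height is between `T` and `B` -/
def Violating (n : ℕ) {s : ℕ} (d : Fin s → ℕ) (e : ℕ) (ε : ℝ) (H T B : ℕ) :
    Set ((Fin s → MvPolynomial (Fin (n + 1)) ℤ) × MvPolynomial (Fin (n + 1)) ℤ) :=
  {P | P ∈ Pairs n d e H ∧ ∃ x : Fin (n + 1) → ℤ, IsPoint x ∧ T ≤ height x ∧ height x ≤ B ∧
    (∀ i, eval x (P.1 i) = 0) ∧ eval x P.2 ≠ 0 ∧
    ε * Real.log (height x) ≤ proximity e H P.2 x + canonicalHeight d x}

/-- the probability that a random pair violates Vojta's inequality at a point of height between `T`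
and `B` -/
noncomputable def probability (n : ℕ) {s : ℕ} (d : Fin s → ℕ) (e : ℕ) (ε : ℝ) (H T B : ℕ) : ℝ :=
  ((Violating n d e ε H T B).ncard : ℝ) / ((Pairs n d e H).ncard : ℝ)

theorem ineq_iff (D n e : ℕ) (ε h g H : ℝ) (hh : 0 < h) (hg : 0 < g) (hH : 0 < H) :
    ε * Real.log h ≤ Real.log (H * h ^ e / g) + ((D : ℝ) - (n + 1)) * Real.log h ↔
      g ≤ H * h ^ (((D + e : ℕ) : ℝ) - (n + 1) - ε) := by
  have h1 : Real.log (H * h ^ e / g) = Real.log H + e * Real.log h - Real.log g := by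
    rw [Real.log_div (by positivity) hg.ne', Real.log_mul hH.ne' (by positivity), Real.log_pow]
  have h2 : Real.log (H * h ^ (((D + e : ℕ) : ℝ) - (n + 1) - ε)) =
      Real.log H + (((D + e : ℕ) : ℝ) - (n + 1) - ε) * Real.log h := by
    rw [Real.log_mul hH.ne' (by positivity), Real.log_rpow hh]
  rw [← Real.log_le_log_iff hg (by positivity), h1, h2]
  push_cast
  constructor <;> intro h <;> linarith

theorem violating_eq (n : ℕ) {s : ℕ} (d : Fin s → ℕ) (e : ℕ) (ε : ℝ) (H T B : ℕ) (hH : 1 ≤ H) :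
    Violating n d e ε H T B = Pool.Agent.U580.VP.Vio n d e ε H T B := by
  have key : ∀ (G : MvPolynomial (Fin (n + 1)) ℤ) (x : Fin (n + 1) → ℤ), IsPoint x → eval x G ≠ 0 →
      (ε * Real.log (height x) ≤ proximity e H G x + canonicalHeight d x ↔
      ((|eval x G| : ℤ) : ℝ) ≤ H * (Pool.Agent.U580.VP.ht x : ℝ) ^
        (((∑ i, d i + e : ℕ) : ℝ) - (n + 1) - ε)) := by
    intro G x hx hG
    have h0 : 0 < height x := by
      obtain ⟨j, hj⟩ := hx 2 Nat.prime_two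
      have h1 : (x j).natAbs ≤ height x :=
        Finset.le_sup (f := fun j => (x j).natAbs) (Finset.mem_univ j)
      have h2 : x j ≠ 0 := fun h => hj (h ▸ dvd_zero _)
      have h3 := Int.natAbs_pos.2 h2
      omega
    have h0r : (0 : ℝ) < (height x : ℝ) := by exact_mod_cast h0
    have hg : (0 : ℝ) < ((|eval x G| : ℤ) : ℝ) := by exact_mod_cast abs_pos.2 hG
    have hHr : (0 : ℝ) < (H : ℝ) := by exact_mod_cast hH
    exact ineq_iff (∑ i, d i) n e ε (height x) _ H h0r hg hHr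
  ext P
  constructor
  · rintro ⟨⟨h1, h2⟩, x, h3, h4, h5, h6, h7, h8⟩
    exact ⟨h1, h2, x, h3, h4, h5, h6, h7, (key _ x h3 h7).1 h8⟩
  · rintro ⟨h1, h2, x, h3, h4, h5, h6, h7, h8⟩
    exact ⟨⟨h1, h2⟩, x, h3, h4, h5, h6, h7, (key _ x h3 h7).2 h8⟩

theorem pairs_card (n : ℕ) {s : ℕ} (d : Fin s → ℕ) (e H : ℕ) :
    (Pairs n d e H).Finite ∧ (Pairs n d e H).ncard =
      (∏ i, (Pool.Agent.R870.RC.FF n (d i) H).card) * (Pool.Agent.R870.RC.FF n e H).card := by
  classical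
  have h : Pairs n d e H = (((Fintype.piFinset fun i => Pool.Agent.R870.RC.FF n (d i) H) ×ˢ
      Pool.Agent.R870.RC.FF n e H : Finset ((Fin s → MvPolynomial (Fin (n + 1)) ℤ) ×
        MvPolynomial (Fin (n + 1)) ℤ)) : Set _) := by
    ext P
    rw [Finset.mem_coe, Finset.mem_product, Fintype.mem_piFinset, Pool.Agent.R870.RC.mem_FF]
    exact and_congr (forall_congr' fun i => (Pool.Agent.R870.RC.mem_FF _).symm) Iff.rfl
  rw [h]
  refine ⟨Finset.finite_toSet _, ?_⟩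
  rw [Set.ncard_coe_finset, Finset.card_product, Fintype.card_piFinset]

/-- **Vojta's inequality for random pairs.** Let `n ≥ 1`, `d_i ≥ 1`, `ε > 0`. There are `c, C > 0` such
that for all `H, T ≥ 1` and all `B`
(1) the probability that Vojta's inequality is violated at a point of height between `T` and `B` is at
most `C max(1, B/H) ^ (∑ d_i + e) H ^ (-s) T ^ (-ε)`;
(2) if `s ≥ 1`, `∑ d_i ≤ n + 1 + ε`, `B ≥ 2 T` and `H ≥ C T ^ (2 (n + 1) + ε)`, then it is at least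
`c H ^ (-s) T ^ (-ε)`. -/
theorem result (n s : ℕ) (hn : 1 ≤ n) (d : Fin s → ℕ) (hd : ∀ i, 1 ≤ d i) (e : ℕ) (ε : ℝ)
    (hε : 0 < ε) :
    ∃ c C : ℝ, 0 < c ∧ 0 < C ∧ ∀ H : ℕ, 1 ≤ H →
      (Pairs n d e H).Finite ∧ (Pairs n d e H).Nonempty ∧ ∀ T B : ℕ, 1 ≤ T →
      probability n d e ε H T B ≤
        C * (max 1 ((B : ℝ) / H)) ^ (∑ i, d i + e) * (1 / (H : ℝ) ^ s * (T : ℝ) ^ (-ε)) ∧
      (1 ≤ s → ((∑ i, d i : ℕ) : ℝ) ≤ (n : ℝ) + 1 + ε → 2 * T ≤ B →
        C * (T : ℝ) ^ (2 * ((n : ℝ) + 1) + ε) ≤ H →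
        c * (1 / (H : ℝ) ^ s * (T : ℝ) ^ (-ε)) ≤ probability n d e ε H T B) := by
  classical
  obtain ⟨m, rfl⟩ : ∃ m, n = m + 1 := ⟨n - 1, by omega⟩
  obtain ⟨p1, hp1⟩ : ∃ p1 : ℝ, p1 = ∏ i, (Pool.Agent.R870.RC.cst (m + 1) (d i) : ℝ) := ⟨_, rfl⟩
  obtain ⟨p2, hp2⟩ : ∃ p2 : ℝ, p2 = (Pool.Agent.R870.RC.cst (m + 1) e : ℝ) := ⟨_, rfl⟩
  have hp10 : 0 ≤ p1 := by
    rw [hp1]
    exact Finset.prod_nonneg fun i _ => Nat.cast_nonneg _
  have hp20 : 0 ≤ p2 := by
    rw [hp2]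
    exact Nat.cast_nonneg _
  obtain ⟨K, hK⟩ : ∃ K : ℝ, K = ((((m + 1 : ℕ) : ℝ) + 1) * (4 * 3 ^ (m + 1) * (1 + 1 / ε)) *
      (p1 * p2)) := ⟨_, rfl⟩
  have hK0 : 0 ≤ K := by
    rw [hK]
    positivity
  -- the lower bound
  obtain ⟨c, C, hc, hC, hlow⟩ : ∃ c C : ℝ, 0 < c ∧ 0 < C ∧ (1 ≤ s →
      ((∑ i, d i : ℕ) : ℝ) ≤ ((m + 1 : ℕ) : ℝ) + 1 + ε → ∀ H : ℕ, 1 ≤ H → ∀ T : ℕ, 1 ≤ T →
      C * (T : ℝ) ^ (2 * (((m + 1 : ℕ) : ℝ) + 1) + ε) ≤ H →
      c * (1 / (H : ℝ) ^ s * (T : ℝ) ^ (-ε)) *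
        ((∏ i, ((Pool.Agent.R870.RC.FF (m + 1) (d i) H).card : ℝ)) *
          ((Pool.Agent.R870.RC.FF (m + 1) e H).card : ℝ)) ≤
        ((Pool.Agent.U580.VP.Vio (m + 1) d e ε H T (2 * T)).ncard : ℝ)) := by
    by_cases h : 1 ≤ s ∧ ((∑ i, d i : ℕ) : ℝ) ≤ ((m + 1 : ℕ) : ℝ) + 1 + ε
    · obtain ⟨c, C, hc, hC, h3⟩ := Pool.Agent.U580.VP.low_vio m h.1 d hd e ε hε h.2
      exact ⟨c, C, hc, hC, fun _ _ => h3⟩
    · exact ⟨1, 1, one_pos, one_pos, fun h1 h2 => absurd ⟨h1, h2⟩ h⟩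
  refine ⟨c, C + K, hc, by linarith, fun H hH => ?_⟩
  have hHr : (0 : ℝ) < H := by exact_mod_cast hH
  obtain ⟨hfin, hcard⟩ := pairs_card (m + 1) d e H
  have hpos : 0 < (Pairs (m + 1) d e H).ncard := by
    rw [hcard]
    refine Nat.mul_pos (Finset.prod_pos fun i _ => ?_) ?_
    · rw [Pool.Agent.R870.RC.card_FF]
      positivity
    · rw [Pool.Agent.R870.RC.card_FF]
      positivity
  have hposr : (0 : ℝ) < ((Pairs (m + 1) d e H).ncard : ℝ) := by exact_mod_cast hpos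
  have hcardr : ((Pairs (m + 1) d e H).ncard : ℝ) =
      (∏ i, ((Pool.Agent.R870.RC.FF (m + 1) (d i) H).card : ℝ)) *
        ((Pool.Agent.R870.RC.FF (m + 1) e H).card : ℝ) := by
    rw [hcard]
    push_cast
    rfl
  refine ⟨hfin, Set.nonempty_of_ncard_ne_zero hpos.ne', fun T B hT => ⟨?_, ?_⟩⟩
  · have hTr : (0 : ℝ) < T := by exact_mod_cast hT
    unfold probability
    rw [div_le_iff₀ hposr, violating_eq _ _ _ _ _ _ _ hH]
    have h1 := Pool.Agent.U580.VP.up_vio (n := m + 1) d e ε hε H T B hH hT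
    rw [← hp1, ← hp2, ← hK, ← hcardr] at h1
    refine h1.trans ?_
    have hmm : Pool.Agent.U580.VP.mm H B = max 1 ((B : ℝ) / H) := rfl
    rw [hmm]
    have hm0 : (0 : ℝ) ≤ max 1 ((B : ℝ) / H) := zero_le_one.trans (le_max_left _ _)
    obtain ⟨u, hu⟩ : ∃ u : ℝ, u = (max 1 ((B : ℝ) / H)) ^ (∑ i, d i + e) := ⟨_, rfl⟩
    have hu0 : 0 ≤ u := by rw [hu]; positivity
    obtain ⟨v, hv⟩ : ∃ v : ℝ, v = 1 / (H : ℝ) ^ s * (T : ℝ) ^ (-ε) := ⟨_, rfl⟩
    have hv0 : 0 ≤ v := by rw [hv]; positivity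
    rw [← hu, ← hv]
    have e1 : u * (1 / (H : ℝ) ^ s) * (T : ℝ) ^ (-ε) = u * v := by rw [hv]; ring
    rw [e1]
    refine mul_le_mul_of_nonneg_right ?_ hposr.le
    have h2 : K * (u * v) ≤ (C + K) * (u * v) := by
      refine mul_le_mul_of_nonneg_right (by linarith) (by positivity)
    calc K * (u * v) ≤ (C + K) * (u * v) := h2
      _ = (C + K) * u * v := by ring
  · intro h1 h2 h3 h4
    have hTr : (0 : ℝ) < T := by exact_mod_cast hT
    unfold probability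
    rw [le_div_iff₀ hposr, violating_eq _ _ _ _ _ _ _ hH]
    have h5 : C * (T : ℝ) ^ (2 * (((m + 1 : ℕ) : ℝ) + 1) + ε) ≤ H := by
      refine le_trans (mul_le_mul_of_nonneg_right ?_ (by positivity)) h4
      linarith
    have h6 := hlow h1 h2 H hH T hT h5
    rw [← hcardr] at h6
    refine h6.trans ?_
    have h7 : Pool.Agent.U580.VP.Vio (m + 1) d e ε H T (2 * T) ⊆
        Pool.Agent.U580.VP.Vio (m + 1) d e ε H T B := by
      rintro P ⟨a1, a2, x, a3, a4, a5, a6⟩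
      exact ⟨a1, a2, x, a3, a4, a5.trans h3, a6⟩
    exact_mod_cast Set.ncard_le_ncard h7 (Pool.Agent.U580.VP.fin_vio d e ε H T B)

end Pool.Agent.Results.MP_17a322_nt.RandomLogPairs
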